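import Pool.Agent.H586R2.PM.Sym

/-! Disjoint blocks inside a bipartite graph. -/

namespace Pool.Agent.H586R2.PM

open Finset

/-- the pairs of a block: left vertex, right vertex (real or extra) -/
abbrev Blk (m : ℕ) := (Fin m × Bool) × (Fin m ⊕ Fin m)

/-- a block has a perfect matching -/
def BYes {m : ℕ} (Y : Blk m → Bool) : Prop :=
  ∃ f : Fin m × Bool → Fin m ⊕ Fin m, Function.Injective f ∧ ∀ l, Y (l, f l) = true

/-- all extra pairs are present -/
def ext {m : ℕ} (z : Vr m → Bool) : Blk m → Bool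
  | (l, Sum.inl r) => z (l, r)
  | (_, Sum.inr _) => true

lemma yes_uP {m : ℕ} (π : Sy m) (x : Fin m → Bool) : BYes (ext (uP π x)) := by
  refine ⟨fun l => if (π.1 l).2 = x (π.1 l).1 then Sum.inl (π.2.symm (π.1 l).1)
    else Sum.inr (π.1 l).1, ?_, ?_⟩
  · intro l l' h
    simp only at h
    apply π.1.injective
    by_cases h1 : (π.1 l).2 = x (π.1 l).1
    · by_cases h2 : (π.1 l').2 = x (π.1 l').1
      · rw [if_pos h1, if_pos h2, Sum.inl.injEq, π.2.symm.apply_eq_iff_eq] at h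
        refine Prod.ext h ?_
        rw [h1, h2, h]
      · rw [if_pos h1, if_neg h2] at h
        exact absurd h (by simp)
    · by_cases h2 : (π.1 l').2 = x (π.1 l').1
      · rw [if_neg h1, if_pos h2] at h
        exact absurd h (by simp)
      · rw [if_neg h1, if_neg h2, Sum.inr.injEq] at h
        refine Prod.ext h ?_
        rw [h] at h1
        revert h1 h2
        cases (π.1 l).2 <;> cases (π.1 l').2 <;> cases x (π.1 l').1 <;> simp
  · intro l
    simp only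
    split_ifs with h1
    · simp only [ext, uP, decide_eq_true_eq, Equiv.apply_symm_apply]
      exact Prod.ext rfl h1
    · rfl

lemma no_vQ {m : ℕ} (π : Sy m) (i : Fin m) (y : Fin m → Bool) : ¬ BYes (ext (vQ π i y)) := by
  classical
  rintro ⟨f, hf, hy⟩
  have hb : Function.Bijective f := by
    rw [Fintype.bijective_iff_injective_and_card]
    refine ⟨hf, ?_⟩
    simp [mul_two]
  obtain ⟨g, hg⟩ : ∃ g : Fin m → Fin m × Bool, ∀ r, f (g r) = Sum.inl r := by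
    choose g hg using fun r : Fin m => hb.2 (Sum.inl r)
    exact ⟨g, hg⟩
  have h1 : ∀ r, (π.2 r ≠ i ∧ y (π.2 r) = false) ∨
      ((π.1 (g r)).2 = false ∧ (π.1 (g r)).1 ≠ i ∧ y (π.1 (g r)).1 = true) := by
    intro r
    have := hy (g r)
    rw [hg] at this
    simpa only [ext, vQ, decide_eq_true_eq] using this
  let J : Fin m → Fin m := fun r => if y (π.2 r) = false ∧ π.2 r ≠ i then π.2 r else (π.1 (g r)).1
  have hJ1 : ∀ r, J r ≠ i := by
    intro r
    simp only [J]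
    split_ifs with h2
    · exact h2.2
    · rcases h1 r with h3 | h3
      · exact absurd ⟨h3.2, h3.1⟩ h2
      · exact h3.2.1
  have hJ2 : Function.Injective J := by
    intro r r' h
    simp only [J] at h
    by_cases h2 : y (π.2 r) = false ∧ π.2 r ≠ i <;> by_cases h3 : y (π.2 r') = false ∧ π.2 r' ≠ i
    · rw [if_pos h2, if_pos h3] at h
      exact π.2.injective h
    · rw [if_pos h2, if_neg h3] at h
      rcases h1 r' with h4 | h4
      · exact absurd ⟨h4.2, h4.1⟩ h3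
      · rw [← h, h2.1] at h4
        exact absurd h4.2.2 (by simp)
    · rw [if_neg h2, if_pos h3] at h
      rcases h1 r with h4 | h4
      · exact absurd ⟨h4.2, h4.1⟩ h2
      · rw [h, h3.1] at h4
        exact absurd h4.2.2 (by simp)
    · rw [if_neg h2, if_neg h3] at h
      rcases h1 r with h4 | h4
      · exact absurd ⟨h4.2, h4.1⟩ h2
      · rcases h1 r' with h5 | h5
        · exact absurd ⟨h5.2, h5.1⟩ h3
        · have h6 : π.1 (g r) = π.1 (g r') := Prod.ext h (by rw [h4.1, h5.1])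
          have h7 := π.1.injective h6
          have h8 := congrArg f h7
          rw [hg, hg] at h8
          exact Sum.inl_injective h8
  obtain ⟨r, hr⟩ := (Finite.injective_iff_surjective.mp hJ2) i
  exact hJ1 r hr

section

variable {V : Type} {L : Finset V} {M m : ℕ} {Z : Type}

/-- the relation of the block structure -/
def rel (Y : Fin M → Blk m → Bool) :
    (Fin M × (Fin m × Bool)) ⊕ Z → (Fin M × (Fin m ⊕ Fin m)) ⊕ Z → Prop
  | Sum.inl (c, l), Sum.inl (c', r) => c = c' ∧ Y c (l, r) = true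
  | Sum.inr z, Sum.inr z' => z = z'
  | _, _ => False

/-- the graph of the block structure -/
def gr (eL : (Fin M × (Fin m × Bool)) ⊕ Z ≃ {v // v ∈ L})
    (eR : (Fin M × (Fin m ⊕ Fin m)) ⊕ Z ≃ {v // v ∉ L}) (Y : Fin M → Blk m → Bool) :
    SimpleGraph V where
  Adj u v := (∃ a b, u = (eL a).1 ∧ v = (eR b).1 ∧ rel Y a b) ∨
    (∃ a b, v = (eL a).1 ∧ u = (eR b).1 ∧ rel Y a b)
  symm := ⟨fun u v h => h.symm⟩
  loopless := ⟨fun u h => by
    rcases h with ⟨a, b, h1, h2, -⟩ | ⟨a, b, h1, h2, -⟩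
    · exact (eR b).2 (h2 ▸ h1 ▸ (eL a).2)
    · exact (eR b).2 (h2 ▸ h1 ▸ (eL a).2)⟩

variable {eL : (Fin M × (Fin m × Bool)) ⊕ Z ≃ {v // v ∈ L}}
  {eR : (Fin M × (Fin m ⊕ Fin m)) ⊕ Z ≃ {v // v ∉ L}}

lemma adj_LR (Y : Fin M → Blk m → Bool) (a : (Fin M × (Fin m × Bool)) ⊕ Z)
    (b : (Fin M × (Fin m ⊕ Fin m)) ⊕ Z) :
    (gr eL eR Y).Adj (eL a).1 (eR b).1 ↔ rel Y a b := by
  constructor
  · rintro (⟨a', b', h1, h2, h3⟩ | ⟨a', b', h1, h2, h3⟩)
    · rw [eL.injective (Subtype.ext h1), eR.injective (Subtype.ext h2)]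
      exact h3
    · exact absurd (h1 ▸ (eL a').2) (eR b).2
  · intro h
    exact Or.inl ⟨a, b, rfl, rfl, h⟩

lemma adj_RL (Y : Fin M → Blk m → Bool) (a : (Fin M × (Fin m × Bool)) ⊕ Z)
    (b : (Fin M × (Fin m ⊕ Fin m)) ⊕ Z) :
    (gr eL eR Y).Adj (eR b).1 (eL a).1 ↔ rel Y a b := by
  rw [SimpleGraph.adj_comm, adj_LR]

lemma adj_LL (Y : Fin M → Blk m → Bool) {u v : V} (hu : u ∈ L) (hv : v ∈ L) :
    ¬ (gr eL eR Y).Adj u v := by
  rintro (⟨a', b', h1, h2, h3⟩ | ⟨a', b', h1, h2, h3⟩)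
  · exact (eR b').2 (h2 ▸ hv)
  · exact (eR b').2 (h2 ▸ hu)

lemma adj_RR (Y : Fin M → Blk m → Bool) {u v : V} (hu : u ∉ L) (hv : v ∉ L) :
    ¬ (gr eL eR Y).Adj u v := by
  rintro (⟨a', b', h1, h2, h3⟩ | ⟨a', b', h1, h2, h3⟩)
  · exact hu (h1 ▸ (eL a').2)
  · exact hv (h1 ▸ (eL a').2)

lemma gr_bip (Y : Fin M → Blk m → Bool) {u v : V} (h : (gr eL eR Y).Adj u v) :
    u ∈ L ↔ v ∉ L := by
  by_cases hu : u ∈ L <;> by_cases hv : v ∈ L
  · exact absurd h (adj_LL Y hu hv)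
  · simp [hu, hv]
  · simp [hu, hv]
  · exact absurd h (adj_RR Y hu hv)

/-- perfect matchings from involutions -/
lemma pm_of_invol {G : SimpleGraph V} (σ : V → V) (h1 : ∀ v, σ (σ v) = v)
    (h2 : ∀ v, G.Adj v (σ v)) : ∃ Mt : G.Subgraph, Mt.IsPerfectMatching := by
  refine ⟨{ verts := Set.univ
            Adj := fun u v => σ u = v
            adj_sub := fun {u v} h => h ▸ h2 u
            edge_vert := fun _ => Set.mem_univ _
            symm := ⟨fun u v h => by rw [← h, h1]⟩ }, ?_, ?_⟩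
  · intro v _
    exact ⟨σ v, rfl, fun w hw => (show σ v = w from hw).symm⟩
  · intro v
    exact Set.mem_univ _

lemma gr_yes (Y : Fin M → Blk m → Bool) (hY : ∀ c, BYes (Y c)) [Finite Z] :
    ∃ Mt : (gr eL eR Y).Subgraph, Mt.IsPerfectMatching := by
  classical
  choose f hf hfy using hY
  let ψ : (Fin M × (Fin m × Bool)) ⊕ Z → (Fin M × (Fin m ⊕ Fin m)) ⊕ Z :=
    Sum.map (fun p => (p.1, f p.1 p.2)) id
  have hrel : ∀ a, rel Y a (ψ a) := by
    rintro (⟨c, l⟩ | z)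
    · exact ⟨rfl, hfy c l⟩
    · exact rfl
  have hbf : ∀ c, Function.Bijective (f c) := by
    intro c
    rw [Fintype.bijective_iff_injective_and_card]
    refine ⟨hf c, ?_⟩
    simp [mul_two]
  have hψ : Function.Bijective ψ := by
    constructor
    · rintro (⟨c, l⟩ | z) (⟨c', l'⟩ | z') h
      · simp only [ψ, Sum.map_inl, Sum.inl.injEq, Prod.mk.injEq] at h
        obtain ⟨rfl, h⟩ := h
        rw [hf c h]
      · simp [ψ] at h
      · simp [ψ] at h
      · simpa [ψ] using h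
    · rintro (⟨c, r⟩ | z)
      · obtain ⟨l, hl⟩ := (hbf c).2 r
        exact ⟨Sum.inl (c, l), by simp [ψ, hl]⟩
      · exact ⟨Sum.inr z, rfl⟩
  let e : (Fin M × (Fin m × Bool)) ⊕ Z ≃ (Fin M × (Fin m ⊕ Fin m)) ⊕ Z := Equiv.ofBijective ψ hψ
  let φ : {v // v ∈ L} ≃ {v // v ∉ L} := eL.symm.trans (e.trans eR)
  have hφ : ∀ v : {v // v ∈ L}, (gr eL eR Y).Adj v.1 (φ v).1 := by
    intro v
    have h1 : v = eL (eL.symm v) := (eL.apply_symm_apply v).symm
    have h2 : φ v = eR (ψ (eL.symm v)) := rfl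
    rw [h2]
    nth_rewrite 1 [h1]
    rw [adj_LR]
    exact hrel _
  let σ : V → V := fun v => if h : v ∈ L then (φ ⟨v, h⟩).1 else (φ.symm ⟨v, h⟩).1
  refine pm_of_invol σ ?_ ?_
  · intro v
    by_cases h : v ∈ L
    · have h1 : σ v = (φ ⟨v, h⟩).1 := dif_pos h
      have h2 : (φ ⟨v, h⟩).1 ∉ L := (φ ⟨v, h⟩).2
      have h3 : σ (φ ⟨v, h⟩).1 = (φ.symm ⟨(φ ⟨v, h⟩).1, h2⟩).1 := dif_neg h2
      rw [h1, h3]
      have h4 : (⟨(φ ⟨v, h⟩).1, h2⟩ : {v // v ∉ L}) = φ ⟨v, h⟩ := Subtype.ext rfl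
      rw [h4, Equiv.symm_apply_apply]
    · have h1 : σ v = (φ.symm ⟨v, h⟩).1 := dif_neg h
      have h2 : (φ.symm ⟨v, h⟩).1 ∈ L := (φ.symm ⟨v, h⟩).2
      have h3 : σ (φ.symm ⟨v, h⟩).1 = (φ ⟨(φ.symm ⟨v, h⟩).1, h2⟩).1 := dif_pos h2
      rw [h1, h3]
      have h4 : (⟨(φ.symm ⟨v, h⟩).1, h2⟩ : {v // v ∈ L}) = φ.symm ⟨v, h⟩ := Subtype.ext rfl
      rw [h4, Equiv.apply_symm_apply]
  · intro v
    by_cases h : v ∈ L
    · have h1 : σ v = (φ ⟨v, h⟩).1 := dif_pos h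
      rw [h1]
      exact hφ ⟨v, h⟩
    · have h1 : σ v = (φ.symm ⟨v, h⟩).1 := dif_neg h
      rw [h1]
      have h2 := hφ (φ.symm ⟨v, h⟩)
      rw [Equiv.apply_symm_apply] at h2
      exact h2.symm

lemma yes_of_gr (Y : Fin M → Blk m → Bool)
    (h : ∃ Mt : (gr eL eR Y).Subgraph, Mt.IsPerfectMatching) : ∀ c, BYes (Y c) := by
  classical
  obtain ⟨Mt, hM1, hM2⟩ := h
  have h1 : ∀ a, ∃ b, Mt.Adj (eL a).1 (eR b).1 := by
    intro a
    obtain ⟨w, hw, -⟩ := hM1 (hM2 (eL a).1)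
    have h2 : w ∉ L := (gr_bip Y (Mt.adj_sub hw)).mp (eL a).2
    refine ⟨eR.symm ⟨w, h2⟩, ?_⟩
    rw [Equiv.apply_symm_apply]
    exact hw
  choose ψ hψ using h1
  have hinj : Function.Injective ψ := by
    intro a a' h
    obtain ⟨w, -, hw⟩ := hM1 (hM2 (eR (ψ a)).1)
    have h2 := hw _ (hψ a).symm
    have h3 : Mt.Adj (eR (ψ a)).1 (eL a').1 := by
      rw [h]; exact (hψ a').symm
    have h4 := hw _ h3
    exact eL.injective (Subtype.ext (h2.trans h4.symm))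
  have hrel : ∀ a, rel Y a (ψ a) := fun a => (adj_LR Y a (ψ a)).mp (Mt.adj_sub (hψ a))
  intro c
  have h5 : ∀ l, ∃ r, ψ (Sum.inl (c, l)) = Sum.inl (c, r) ∧ Y c (l, r) = true := by
    intro l
    have h6 := hrel (Sum.inl (c, l))
    rcases h7 : ψ (Sum.inl (c, l)) with ⟨c', r⟩ | z
    · rw [h7] at h6
      obtain ⟨rfl, h8⟩ := h6
      exact ⟨r, rfl, h8⟩
    · rw [h7] at h6
      exact h6.elim
  choose f hf1 hf2 using h5
  refine ⟨f, ?_, hf2⟩
  intro l l' h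
  have h6 : ψ (Sum.inl (c, l)) = ψ (Sum.inl (c, l')) := by rw [hf1, hf1, h]
  have h7 := hinj h6
  simpa using h7

end

end Pool.Agent.H586R2.PM
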