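import Pool.Agent.H586R2.PM.Graph
import Pool.Agent.H560R2.Dep2

/-! Flips for perfect matching. -/

namespace Pool.Agent.H586R2.PM

open Finset Pool.Agent.H560R2

/-- `φ` depends in an arbitrary way on the pairs that do not join `A` to `B`, while in the pairs
that join `A` to `B` it is monotone and depends on at most `w` of them. -/
def FreeOutside {V : Type} (A B : Finset V) (w : ℕ) (φ : SimpleGraph V → Bool) : Prop :=
  ∃ S : Finset (V × V), (∀ e ∈ S, e.1 ∈ A ∧ e.2 ∈ B) ∧ S.card ≤ w ∧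
    ∀ G G' : SimpleGraph V,
      (∀ u v, ¬ (u ∈ A ∧ v ∈ B ∨ u ∈ B ∧ v ∈ A) → (G.Adj u v ↔ G'.Adj u v)) →
      (∀ e ∈ S, G.Adj e.1 e.2 → G'.Adj e.1 e.2) → φ G = true → φ G' = true

section

variable {V : Type} {L A B : Finset V} {M m : ℕ} {Z : Type}
  {eL : (Fin M × (Fin m × Bool)) ⊕ Z ≃ {v // v ∈ L}}
  {eR : (Fin M × (Fin m ⊕ Fin m)) ⊕ Z ≃ {v // v ∉ L}}

/-- outside `A`-`B` pairs the block graphs agree -/
lemma gr_outside (hA : ∀ p, (eL (Sum.inl p)).1 ∈ A) (hB : ∀ p, (eR (Sum.inl p)).1 ∈ B)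
    (Y Y' : Fin M → Blk m → Bool) (u v : V) (h : ¬ (u ∈ A ∧ v ∈ B ∨ u ∈ B ∧ v ∈ A)) :
    (gr eL eR Y).Adj u v ↔ (gr eL eR Y').Adj u v := by
  have key : ∀ (Y Y' : Fin M → Blk m → Bool) (a : (Fin M × (Fin m × Bool)) ⊕ Z)
      (b : (Fin M × (Fin m ⊕ Fin m)) ⊕ Z),
      ¬ ((eL a).1 ∈ A ∧ (eR b).1 ∈ B) → rel Y a b → rel Y' a b := by
    rintro Y Y' (p | z) (q | z') h1 h2
    · exact absurd ⟨hA p, hB q⟩ h1
    · exact h2
    · exact h2
    · exact h2
  have key2 : ∀ (Y Y' : Fin M → Blk m → Bool), (gr eL eR Y).Adj u v → (gr eL eR Y').Adj u v := by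
    rintro Y Y' (⟨a, b, rfl, rfl, h3⟩ | ⟨a, b, rfl, rfl, h3⟩)
    · exact Or.inl ⟨a, b, rfl, rfl, key Y Y' a b (fun h' => h (Or.inl h')) h3⟩
    · exact Or.inr ⟨a, b, rfl, rfl, key Y Y' a b (fun h' => h (Or.inr ⟨h'.2, h'.1⟩)) h3⟩
  exact ⟨key2 Y Y', key2 Y' Y⟩

lemma gr_mono (Y Y' : Fin M → Blk m → Bool) (h : ∀ c e, Y c e = true → Y' c e = true) :
    gr eL eR Y ≤ gr eL eR Y' := by
  have key : ∀ (a : (Fin M × (Fin m × Bool)) ⊕ Z) (b : (Fin M × (Fin m ⊕ Fin m)) ⊕ Z),
      rel Y a b → rel Y' a b := by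
    rintro (⟨c, l⟩ | z) (⟨c', r⟩ | z') h2
    · exact ⟨h2.1, h _ _ h2.2⟩
    · exact h2
    · exact h2
    · exact h2
  rintro u v (⟨a, b, rfl, rfl, h3⟩ | ⟨a, b, rfl, rfl, h3⟩)
  · exact Or.inl ⟨a, b, rfl, rfl, key a b h3⟩
  · exact Or.inr ⟨a, b, rfl, rfl, key a b h3⟩

/-- every adjacency is a variable or a constant of the active block -/
lemma adj_leaf (Y : Fin M → Blk m → Bool) (J : Fin M) (u v : V) :
    ∃ β : (Vr m → Bool) → Bool, MT (varsOf (Vr m)) 0 β ∧
      ∀ z, β z = true ↔ (gr eL eR (Function.update Y J (ext z))).Adj u v := by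
  classical
  have key : ∀ (a : (Fin M × (Fin m × Bool)) ⊕ Z) (b : (Fin M × (Fin m ⊕ Fin m)) ⊕ Z),
      ∃ β : (Vr m → Bool) → Bool, MT (varsOf (Vr m)) 0 β ∧
        ∀ z, β z = true ↔ rel (Function.update Y J (ext z)) a b := by
    have hconst : ∀ (a : (Fin M × (Fin m × Bool)) ⊕ Z) (b : (Fin M × (Fin m ⊕ Fin m)) ⊕ Z)
        (P : Prop), (∀ z, P ↔ rel (Function.update Y J (ext z)) a b) →
        ∃ β : (Vr m → Bool) → Bool, MT (varsOf (Vr m)) 0 β ∧
          ∀ z, β z = true ↔ rel (Function.update Y J (ext z)) a b := by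
      intro a b P hP
      exact ⟨fun _ => decide P, MT.const _, fun z => by rw [decide_eq_true_eq]; exact hP z⟩
    rintro (⟨c, l⟩ | z) (⟨c', r⟩ | z')
    · by_cases hc : c = J
      · subst hc
        rcases r with r | r
        · by_cases hcc : c = c'
          · refine ⟨fun z => z (l, r), MT.base ⟨(l, r), rfl⟩, fun z => ?_⟩
            simp only [rel, Function.update_self, ext, hcc, true_and]
          · exact hconst _ _ False (fun z => by simp [rel, hcc])
        · exact hconst _ _ (c = c') (fun z => by simp [rel, ext])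
      · exact hconst _ _ (c = c' ∧ Y c (l, r) = true) (fun z => by
          simp only [rel, Function.update_of_ne hc])
    · exact hconst _ _ False (fun z => Iff.rfl)
    · exact hconst _ _ False (fun z => Iff.rfl)
    · exact hconst _ _ (z = z') (fun z => Iff.rfl)
  by_cases hu : u ∈ L <;> by_cases hv : v ∈ L
  · exact ⟨fun _ => false, MT.const _, fun z => by
      simp only [Bool.false_eq_true, false_iff]; exact adj_LL _ hu hv⟩
  · obtain ⟨a, ha⟩ := eL.surjective ⟨u, hu⟩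
    obtain ⟨b, hb⟩ := eR.surjective ⟨v, hv⟩
    obtain ⟨β, h1, h2⟩ := key a b
    refine ⟨β, h1, fun z => ?_⟩
    rw [h2, ← adj_LR (eL := eL) (eR := eR), ha, hb]
  · obtain ⟨a, ha⟩ := eL.surjective ⟨v, hv⟩
    obtain ⟨b, hb⟩ := eR.surjective ⟨u, hu⟩
    obtain ⟨β, h1, h2⟩ := key a b
    refine ⟨β, h1, fun z => ?_⟩
    rw [h2, ← adj_RL (eL := eL) (eR := eR), ha, hb]
  · exact ⟨fun _ => false, MT.const _, fun z => by
      simp only [Bool.false_eq_true, false_iff]; exact adj_RR _ hu hv⟩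

/-- leaf functions on the active block -/
lemma leaf_tree (hA : ∀ p, (eL (Sum.inl p)).1 ∈ A) (hB : ∀ p, (eR (Sum.inl p)).1 ∈ B)
    {w : ℕ} {φ : SimpleGraph V → Bool} (hφ : FreeOutside A B w φ)
    (Y : Fin M → Blk m → Bool) (J : Fin M) :
    MT (varsOf (Vr m)) (2 * w) (fun z => φ (gr eL eR (Function.update Y J (ext z)))) := by
  classical
  obtain ⟨S, -, hS2, hS3⟩ := hφ
  choose β hβ1 hβ2 using fun e : V × V => adj_leaf (eL := eL) (eR := eR) Y J e.1 e.2
  let en : Fin S.card ≃ S := (Fintype.equivFinOfCardEq (by simp)).symm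
  let H : (Fin S.card → Bool) → Bool := fun t => decide (∃ z : Vr m → Bool,
    (∀ j, β (en j).1 z ≤ t j) ∧ φ (gr eL eR (Function.update Y J (ext z))) = true)
  have hH : Monotone H := by
    intro t t' ht
    by_cases h : ∃ z : Vr m → Bool, (∀ j, β (en j).1 z ≤ t j) ∧
        φ (gr eL eR (Function.update Y J (ext z))) = true
    · have h' : ∃ z : Vr m → Bool, (∀ j, β (en j).1 z ≤ t' j) ∧
          φ (gr eL eR (Function.update Y J (ext z))) = true := by
        obtain ⟨z, h1, h2⟩ := h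
        exact ⟨z, fun j => (h1 j).trans (ht j), h2⟩
      simp only [H, h, h', decide_true, le_refl]
    · simp only [H, h, decide_false, Bool.false_le]
  have h1 : (fun z => φ (gr eL eR (Function.update Y J (ext z)))) =
      fun z => H (fun j => β (en j).1 z) := by
    funext z
    rcases h2 : φ (gr eL eR (Function.update Y J (ext z))) with _ | _
    · symm
      simp only [H, decide_eq_false_iff_not]
      rintro ⟨z', h3, h4⟩
      have h5 := hS3 _ (gr eL eR (Function.update Y J (ext z)))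
        (fun u v h => gr_outside hA hB _ _ u v h) (fun e he hadj => ?_) h4
      · rw [h2] at h5; exact absurd h5 (by simp)
      · rw [← hβ2] at hadj ⊢
        have h6 := h3 (en.symm ⟨e, he⟩)
        rw [Equiv.apply_symm_apply] at h6
        rw [hadj] at h6
        exact top_le_iff.mp h6
    · symm
      simp only [H, decide_eq_true_eq]
      exact ⟨z, fun j => le_rfl, h2⟩
  rw [h1]
  exact (MT.local S.card H hH (fun j => β (en j).1) (fun j => hβ1 _)).mono (by omega)

/-- One step: some accepted block changes the inputs of the arbitrary gates. -/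
theorem step [Finite Z] (hA : ∀ p, (eL (Sum.inl p)).1 ∈ A) (hB : ∀ p, (eR (Sum.inl p)).1 ∈ B)
    {d D k wd : ℕ} (hd : d = D + k + 2 * wd) (hd4 : 4 ≤ d) (hm : m = 36 * d)
    {s : ℕ} {T : Finset (Fin s)} {w : Fin s → ℕ} {Lf : Type} {leaf : Lf → SimpleGraph V → Bool}
    (hleaf : ∀ l, FreeOutside A B wd (leaf l))
    {a : ∀ i, Fin (w i) → Lf ⊕ Fin s}
    (htop : ∀ i j k, a i j = Sum.inr k → k < i)
    {op : ∀ i, (Fin (w i) → Bool) → Bool} (hmon : ∀ i ∉ T, w i ≤ 2 ∧ Monotone (op i))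
    {dep : Fin s → ℕ} (hdep : ∀ i ∉ T, 1 ≤ dep i ∧ dep i ≤ D ∧
      ∀ j k, a i j = Sum.inr k → k ∉ T → dep k < dep i)
    {val : SimpleGraph V → Fin s → Bool}
    (hval : ∀ G i, val G i = op i (fun j => Sum.elim (fun l => leaf l G) (val G) (a i j)))
    {o : Fin s} (ho : ∀ G : SimpleGraph V, (∀ u v, G.Adj u v → (u ∈ L ↔ v ∉ L)) →
      (val G o = true ↔ ∃ Mt : G.Subgraph, Mt.IsPerfectMatching))
    (hk : 1 + ∑ i ∈ T, w i ≤ 2 ^ k) (Y : Fin M → Blk m → Bool) (J : Fin M)
    (hY : ∀ c, BYes (Y c)) (hJ : Y J = fun _ => true) :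
    ∃ X, BYes X ∧ ∃ t ∈ T, ∃ j,
      Sum.elim (fun l => leaf l (gr eL eR (Function.update Y J X)))
        (val (gr eL eR (Function.update Y J X))) (a t j) ≠
      Sum.elim (fun l => leaf l (gr eL eR Y)) (val (gr eL eR Y)) (a t j) := by
  classical
  by_contra hcon
  push Not at hcon
  have hio : ∀ G : SimpleGraph V, (∃ Y', G = gr eL eR Y') →
      (val G o = true ↔ ∃ Mt : G.Subgraph, Mt.IsPerfectMatching) := by
    rintro G ⟨Y', rfl⟩
    exact ho _ (fun u v h => gr_bip Y' h)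
  obtain ⟨g, hg1, hg2⟩ := flip_and (leaf := leaf) htop hmon hdep val hval o
    (gr eL eR Y) {G | ∃ z, G = gr eL eR (Function.update Y J (ext z))} (by
      rintro G ⟨z, rfl⟩ l
      obtain ⟨S, hS1, hS2, hS3⟩ := hleaf l
      rcases h1 : leaf l (gr eL eR (Function.update Y J (ext z))) with _ | _
      · exact Bool.false_le _
      · rw [hS3 _ (gr eL eR Y) (fun u v h => gr_outside hA hB _ _ u v h) (fun e _ hadj => ?_) h1]
        refine gr_mono _ _ ?_ hadj
        intro c e' he'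
        by_cases hc : c = J
        · rw [hc, hJ]
        · rwa [Function.update_of_ne hc] at he') (by
      rintro G ⟨z, rfl⟩ h1
      rw [hio _ ⟨_, rfl⟩] at h1
      have h2 := yes_of_gr _ h1 J
      rw [Function.update_self] at h2
      exact hcon (ext z) h2) k hk
  let E : (Vr m → Bool) → SimpleGraph V := fun z => gr eL eR (Function.update Y J (ext z))
  have h3 : MT (varsOf (Vr m)) (D + k + 2 * wd) (fun z => g (E z)) := by
    refine MT.comp E ?_ hg1
    rintro b ⟨l, rfl⟩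
    exact leaf_tree hA hB (hleaf l) Y J
  rw [← hd] at h3
  refine no_tree hd4 hm _ h3 ?_ ?_
  · intro π x
    show g (E (uP π x)) = true
    rw [hg2 _ ⟨_, rfl⟩, hio _ ⟨_, rfl⟩]
    refine gr_yes _ (fun c => ?_)
    by_cases hc : c = J
    · rw [hc, Function.update_self]; exact yes_uP π x
    · rw [Function.update_of_ne hc]; exact hY c
  · intro π i y
    show g (E (vQ π i y)) = false
    rw [hg2 _ ⟨_, rfl⟩]
    by_contra h4
    rw [Bool.not_eq_false, hio _ ⟨_, rfl⟩] at h4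
    have h5 := yes_of_gr _ h4 J
    rw [Function.update_self] at h5
    exact no_vQ π i y h5

lemma yes_full : BYes (m := m) (fun _ => true) := by
  obtain ⟨f, hf, -⟩ := yes_uP (m := m) (1, 1) (fun _ => false)
  exact ⟨f, hf, fun _ => rfl⟩

end

/-- extending an injection to an equivalence -/
lemma exists_equiv {X W : Type} [Fintype X] [Fintype W] [DecidableEq W] (f : X → W)
    (hf : Function.Injective f) (z : ℕ) (hz : Fintype.card X + z = Fintype.card W) :
    ∃ e : X ⊕ Fin z ≃ W, ∀ x, e (Sum.inl x) = f x := by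
  classical
  have h1 : Fintype.card (Fin z) = Fintype.card {w // w ∉ Set.range f} := by
    have h2 : Fintype.card {w // w ∈ Set.range f} = Fintype.card X :=
      (Fintype.card_congr (Equiv.ofInjective f hf)).symm
    have h3 := Fintype.card_subtype_compl (fun w => w ∈ Set.range f)
    rw [Fintype.card_fin, h3, h2]
    omega
  obtain ⟨e1⟩ := Fintype.card_eq.mp h1
  let e2 : X ≃ {w // w ∈ Set.range f} := Equiv.ofInjective f hf
  refine ⟨(Equiv.sumCongr e2 e1).trans (Equiv.sumCompl (fun w => w ∈ Set.range f)), ?_⟩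
  intro x
  rfl

end Pool.Agent.H586R2.PM
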