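import Pool.Agent.H586R2.PM.Tree

/-! Communication protocols from monotone trees, and the spectral bound for protocols. -/

namespace Pool.Agent.H586R2.PM

open Finset

/-- deterministic protocols of depth `d` with outputs in `I` -/
inductive Prot {α β I : Type*} : ℕ → (α → β → I) → Prop
  | leaf (e : I) : Prot 0 (fun _ _ => e)
  | alice {d : ℕ} {f g : α → β → I} (p : α → Bool) : Prot d f → Prot d g →
      Prot (d + 1) (fun a b => if p a = true then f a b else g a b)
  | bob {d : ℕ} {f g : α → β → I} (q : β → Bool) : Prot d f → Prot d g →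
      Prot (d + 1) (fun a b => if q b = true then f a b else g a b)

lemma Prot.weak {α β I : Type*} {d : ℕ} {f : α → β → I} (h : Prot d f) : Prot (d + 1) f := by
  have : f = fun a b => if (fun _ : α => true) a = true then f a b else f a b := by
    funext a b; simp
  rw [this]
  exact Prot.alice _ h h

lemma Prot.comp {α β α' β' I : Type*} (u : α' → α) (v : β' → β) {d : ℕ} {f : α → β → I}
    (h : Prot d f) : Prot d (fun a b => f (u a) (v b)) := by
  induction h with
  | leaf e => exact Prot.leaf e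
  | alice p _ _ ih1 ih2 => exact Prot.alice (fun a => p (u a)) ih1 ih2
  | bob q _ _ ih1 ih2 => exact Prot.bob (fun b => q (v b)) ih1 ih2

/-- variables as leaves -/
def varsOf (I : Type*) : Set ((I → Bool) → Bool) := {f | ∃ i, f = fun x => x i}

/-- the protocol of a monotone tree -/
theorem kw {I : Type*} [Nonempty I] {d : ℕ} {g : (I → Bool) → Bool} (hg : MT (varsOf I) d g) :
    ∃ out : (I → Bool) → (I → Bool) → I, Prot d out ∧ ∀ a b, g a = true → g b = false →
      a (out a b) = true ∧ b (out a b) = false := by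
  induction hg with
  | base hb =>
    obtain ⟨i, rfl⟩ := hb
    exact ⟨fun _ _ => i, Prot.leaf i, fun a b h1 h2 => ⟨h1, h2⟩⟩
  | const c =>
    refine ⟨fun _ _ => Classical.arbitrary I, Prot.leaf _, fun a b h1 h2 => ?_⟩
    rw [h1] at h2
    exact absurd h2 (by simp)
  | weak _ ih =>
    obtain ⟨out, h1, h2⟩ := ih
    exact ⟨out, h1.weak, h2⟩
  | @and d f g _ _ ihf ihg =>
    obtain ⟨o1, h1, h2⟩ := ihf
    obtain ⟨o2, h3, h4⟩ := ihg
    refine ⟨fun a b => if g b = true then o1 a b else o2 a b, Prot.bob g h1 h3, ?_⟩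
    intro a b ha hb
    simp only [Bool.and_eq_true] at ha
    by_cases hgb : g b = true
    · simp only [hgb, if_true]
      refine h2 a b ha.1 ?_
      simpa [hgb] using hb
    · simp only [hgb]
      exact h4 a b ha.2 (by simpa using hgb)
  | @or d f g _ _ ihf ihg =>
    obtain ⟨o1, h1, h2⟩ := ihf
    obtain ⟨o2, h3, h4⟩ := ihg
    refine ⟨fun a b => if f a = true then o1 a b else o2 a b, Prot.alice f h1 h3, ?_⟩
    intro a b ha hb
    simp only [Bool.or_eq_false_iff] at hb
    by_cases hfa : f a = true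
    · simp only [hfa, if_true]
      exact h2 a b hfa hb.1
    · simp only [hfa]
      refine h4 a b ?_ hb.2
      simpa [hfa] using ha

section

variable {m : ℕ}

/-- the sign `(-1)^|x ∩ y|` -/
noncomputable def sg (x y : Fin m → Bool) : ℝ := ∏ i, (if x i = true ∧ y i = true then -1 else 1)

lemma sg_mul (x y y' : Fin m → Bool) : sg x y * sg x y' =
    ∏ i, (if x i = true ∧ y i = true then (-1 : ℝ) else 1) *
      (if x i = true ∧ y' i = true then -1 else 1) := by
  rw [sg, sg, Finset.prod_mul_distrib]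

lemma sg_orth (y y' : Fin m → Bool) : ∑ x : Fin m → Bool, sg x y * sg x y' =
    if y = y' then (2 : ℝ) ^ m else 0 := by
  have h1 : ∑ x : Fin m → Bool, sg x y * sg x y' = ∏ i : Fin m, ∑ b : Bool,
      ((if b = true ∧ y i = true then (-1 : ℝ) else 1) *
        (if b = true ∧ y' i = true then -1 else 1)) := by
    rw [Finset.prod_univ_sum]
    rw [Fintype.piFinset_univ]
    exact Finset.sum_congr rfl (fun x _ => sg_mul x y y')
  rw [h1]
  by_cases h : y = y'
  · subst h
    rw [if_pos rfl]
    have : ∀ i : Fin m, (∑ b : Bool, ((if b = true ∧ y i = true then (-1 : ℝ) else 1) *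
        (if b = true ∧ y i = true then -1 else 1))) = 2 := by
      intro i
      rw [Fintype.sum_bool]
      rcases y i with _ | _ <;> norm_num
    rw [Finset.prod_congr rfl (fun i _ => this i)]
    simp
  · rw [if_neg h]
    obtain ⟨i, hi⟩ : ∃ i, y i ≠ y' i := by
      by_contra hcon
      push Not at hcon
      exact h (funext hcon)
    apply Finset.prod_eq_zero (Finset.mem_univ i)
    rw [Fintype.sum_bool]
    rcases h1 : y i with _ | _ <;> rcases h2 : y' i with _ | _
    · rw [h1, h2] at hi; exact absurd rfl hi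
    · norm_num
    · norm_num
    · rw [h1, h2] at hi; exact absurd rfl hi

/-- Lindsey's lemma -/
lemma lindsey (f g : (Fin m → Bool) → ℝ) :
    (∑ x, ∑ y, sg x y * (f x * g y)) ^ 2 ≤ (2 : ℝ) ^ m * ((∑ x, f x ^ 2) * ∑ y, g y ^ 2) := by
  have e1 : ∑ x, ∑ y, sg x y * (f x * g y) = ∑ x, f x * ∑ y, sg x y * g y := by
    refine Finset.sum_congr rfl (fun x _ => ?_)
    rw [Finset.mul_sum]
    exact Finset.sum_congr rfl (fun y _ => by ring)
  have e2 : ∑ x, (∑ y, sg x y * g y) ^ 2 = (2 : ℝ) ^ m * ∑ y, g y ^ 2 := by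
    have : ∀ x, (∑ y, sg x y * g y) ^ 2 = ∑ y, ∑ y', (g y * g y') * (sg x y * sg x y') := by
      intro x
      rw [sq, Finset.sum_mul_sum]
      exact Finset.sum_congr rfl (fun y _ => Finset.sum_congr rfl (fun y' _ => by ring))
    rw [Finset.sum_congr rfl (fun x _ => this x), Finset.sum_comm]
    have h2 : ∀ y, ∑ x, ∑ y', (g y * g y') * (sg x y * sg x y') = (2 : ℝ) ^ m * g y ^ 2 := by
      intro y
      rw [Finset.sum_comm]
      have : ∀ y', ∑ x, (g y * g y') * (sg x y * sg x y') =
          if y = y' then (2 : ℝ) ^ m * (g y * g y') else 0 := by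
        intro y'
        rw [← Finset.mul_sum, sg_orth]
        split_ifs <;> ring
      rw [Finset.sum_congr rfl (fun y' _ => this y')]
      rw [Finset.sum_ite_eq]
      simp only [Finset.mem_univ, if_true]
      ring
    rw [Finset.sum_congr rfl (fun y _ => h2 y), ← Finset.mul_sum]
  rw [e1]
  calc (∑ x, f x * ∑ y, sg x y * g y) ^ 2 ≤ (∑ x, f x ^ 2) * ∑ x, (∑ y, sg x y * g y) ^ 2 :=
        Finset.sum_mul_sq_le_sq_mul_sq _ _ _
    _ = (2 : ℝ) ^ m * ((∑ x, f x ^ 2) * ∑ y, g y ^ 2) := by rw [e2]; ring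

open Classical in
/-- indicator -/
noncomputable def ind (p : Prop) : ℝ := if p then 1 else 0

lemma ind_pos {p : Prop} (h : p) : ind p = 1 := by unfold ind; rw [if_pos h]
lemma ind_neg {p : Prop} (h : ¬ p) : ind p = 0 := by unfold ind; rw [if_neg h]

lemma ind_sq_le (p : Prop) : ind p ^ 2 ≤ 1 := by
  by_cases h : p
  · rw [ind_pos h]; norm_num
  · rw [ind_neg h]; norm_num

lemma lindsey01 (P Q : (Fin m → Bool) → Prop) :
    |∑ x, ∑ y, sg x y * ind (P x ∧ Q y)| ≤ Real.sqrt (8 ^ m) := by
  apply Real.le_sqrt_of_sq_le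
  rw [sq_abs]
  have h := lindsey (m := m) (fun x => ind (P x)) (fun y => ind (Q y))
  have e : ∀ x y : Fin m → Bool, sg x y * ind (P x ∧ Q y) =
      sg x y * (ind (P x) * ind (Q y)) := by
    intro x y
    by_cases h1 : P x <;> by_cases h2 : Q y <;> simp [h1, h2, ind]
  simp only [e]
  refine h.trans ?_
  have h3 : ∀ (R : (Fin m → Bool) → Prop), ∑ x, ind (R x) ^ 2 ≤ 2 ^ m := by
    intro R
    calc ∑ x : Fin m → Bool, ind (R x) ^ 2 ≤ ∑ x : Fin m → Bool, 1 :=
          Finset.sum_le_sum (fun x _ => ind_sq_le _)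
      _ = 2 ^ m := by simp
  have h4 := h3 P
  have h5 := h3 Q
  have h6 : (8 : ℝ) ^ m = 2 ^ m * (2 ^ m * 2 ^ m) := by
    rw [← mul_pow, ← mul_pow]; norm_num
  rw [h6]
  have h8 : 0 ≤ ∑ x, ind (Q x) ^ 2 :=
    Finset.sum_nonneg (fun x _ => sq_nonneg _)
  exact mul_le_mul_of_nonneg_left (mul_le_mul h4 h5 h8 (by positivity)) (by positivity)

/-- the spectral bound for protocols -/
theorem prot_bound {I : Type*} {d : ℕ} {out : (Fin m → Bool) → (Fin m → Bool) → I}
    (h : Prot d out) : ∀ (P : (Fin m → Bool) → Prop) (Q : (Fin m → Bool) → I → Prop),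
    |∑ x, ∑ y, sg x y * ind (P x ∧ Q y (out x y))| ≤ 2 ^ d * Real.sqrt (8 ^ m) := by
  induction h with
  | leaf e =>
    intro P Q
    simpa using lindsey01 P (fun y => Q y e)
  | @alice d f g p _ _ ih1 ih2 =>
    intro P Q
    have e : ∑ x, ∑ y, sg x y * ind (P x ∧ Q y (if p x = true then f x y else g x y)) =
        (∑ x, ∑ y, sg x y * ind ((P x ∧ p x = true) ∧ Q y (f x y))) +
        ∑ x, ∑ y, sg x y * ind ((P x ∧ ¬ p x = true) ∧ Q y (g x y)) := by
      rw [← Finset.sum_add_distrib]
      refine Finset.sum_congr rfl (fun x _ => ?_)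
      rw [← Finset.sum_add_distrib]
      refine Finset.sum_congr rfl (fun y _ => ?_)
      by_cases hp : p x = true
      · rw [if_pos hp, ind_neg (p := (P x ∧ ¬ p x = true) ∧ Q y (g x y)) (fun h => h.1.2 hp),
          show ((P x ∧ p x = true) ∧ Q y (f x y)) = (P x ∧ Q y (f x y)) by simp [hp]]
        ring
      · rw [if_neg hp, ind_neg (p := (P x ∧ p x = true) ∧ Q y (f x y)) (fun h => hp h.1.2),
          show ((P x ∧ ¬ p x = true) ∧ Q y (g x y)) = (P x ∧ Q y (g x y)) by simp [hp]]
        ring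
    rw [e, pow_succ]
    have h1 := ih1 (fun x => P x ∧ p x = true) Q
    have h2 := ih2 (fun x => P x ∧ ¬ p x = true) Q
    refine (abs_add_le _ _).trans ?_
    linarith
  | @bob d f g q _ _ ih1 ih2 =>
    intro P Q
    have e : ∑ x, ∑ y, sg x y * ind (P x ∧ Q y (if q y = true then f x y else g x y)) =
        (∑ x, ∑ y, sg x y * ind (P x ∧ (q y = true ∧ Q y (f x y)))) +
        ∑ x, ∑ y, sg x y * ind (P x ∧ (¬ q y = true ∧ Q y (g x y))) := by
      rw [← Finset.sum_add_distrib]
      refine Finset.sum_congr rfl (fun x _ => ?_)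
      rw [← Finset.sum_add_distrib]
      refine Finset.sum_congr rfl (fun y _ => ?_)
      by_cases hp : q y = true
      · rw [if_pos hp, ind_neg (p := P x ∧ (¬ q y = true ∧ Q y (g x y))) (fun h => h.2.1 hp),
          show (P x ∧ (q y = true ∧ Q y (f x y))) = (P x ∧ Q y (f x y)) by simp [hp]]
        ring
      · rw [if_neg hp, ind_neg (p := P x ∧ (q y = true ∧ Q y (f x y))) (fun h => hp h.2.1),
          show (P x ∧ (¬ q y = true ∧ Q y (g x y))) = (P x ∧ Q y (g x y)) by simp [hp]]
        ring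
    rw [e, pow_succ]
    have h1 := ih1 P (fun y e => q y = true ∧ Q y e)
    have h2 := ih2 P (fun y e => ¬ q y = true ∧ Q y e)
    refine (abs_add_le _ _).trans ?_
    linarith

end

end Pool.Agent.H586R2.PM
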