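import Pool.Agent.H586R2.PM.Prot

/-! The symmetrised matching game. -/

namespace Pool.Agent.H586R2.PM

open Finset

variable {m : ℕ}

/-- variables: pairs (left vertex, real right vertex) -/
abbrev Vr (m : ℕ) := (Fin m × Bool) × Fin m

/-- permutations of the two sides -/
abbrev Sy (m : ℕ) := Equiv.Perm (Fin m × Bool) × Equiv.Perm (Fin m)

/-- the matching -/
def uP (π : Sy m) (x : Fin m → Bool) : Vr m → Bool :=
  fun e => decide (π.1 e.1 = (π.2 e.2, x (π.2 e.2)))

/-- the pairs covered by the vertex set given by `y`, one element (that of `i`) removed -/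
def vQ (π : Sy m) (i : Fin m) (y : Fin m → Bool) : Vr m → Bool :=
  fun e => decide ((π.2 e.2 ≠ i ∧ y (π.2 e.2) = false) ∨
    ((π.1 e.1).2 = false ∧ (π.1 e.1).1 ≠ i ∧ y (π.1 e.1).1 = true))

/-- the removed vertex is on the edge `e` -/
def Ev (π : Sy m) (i : Fin m) (y : Fin m → Bool) (e : Vr m) : Prop :=
  (y i = true ∧ π.1 e.1 = (i, false)) ∨ (y i = false ∧ π.2 e.2 = i)

lemma valid1 {π : Sy m} {i : Fin m} {x y : Fin m → Bool} {e : Vr m}
    (h1 : uP π x e = true) (h2 : vQ π i y e = false) :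
    π.2 e.2 = i ∨ (x (π.2 e.2) = true ∧ y (π.2 e.2) = true) := by
  simp only [uP, decide_eq_true_eq] at h1
  simp only [vQ, decide_eq_false_iff_not, not_or, not_and] at h2
  by_cases hj : π.2 e.2 = i
  · exact Or.inl hj
  · right
    have h3 : y (π.2 e.2) = true := by
      have := h2.1 hj
      simpa using this
    have h4 := h2.2
    rw [h1] at h4
    simp only at h4
    refine ⟨?_, h3⟩
    by_contra hx
    exact h4 (by simpa using hx) hj h3

lemma valid2 {π : Sy m} {i : Fin m} {x y : Fin m → Bool} {e : Vr m}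
    (h1 : uP π x e = true) :
    Ev π i y e ↔ (π.2 e.2 = i ∧ ¬ (x i = true ∧ y i = true)) := by
  simp only [uP, decide_eq_true_eq] at h1
  unfold Ev
  rw [h1]
  constructor
  · rintro (⟨h2, h3⟩ | ⟨h2, h3⟩)
    · rw [Prod.ext_iff] at h3
      simp only at h3
      refine ⟨h3.1, ?_⟩
      rintro ⟨h4, -⟩
      rw [h3.1] at h3
      rw [h3.2] at h4
      exact absurd h4 (by simp)
    · exact ⟨h3, fun h => by rw [h2] at h; exact absurd h.2 (by simp)⟩
  · rintro ⟨h2, h3⟩
    rcases hy : y i with _ | _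
    · right; exact ⟨rfl, h2⟩
    · left
      refine ⟨rfl, ?_⟩
      rw [h2]
      congr 1
      by_contra hx
      exact h3 ⟨by simpa using hx, hy⟩

/-- exchanging the edges of `i` and `j` -/
def sw (x : Fin m → Bool) (i j : Fin m) (π : Sy m) : Sy m :=
  (π.1.trans (Equiv.swap (i, x i) (j, x j)), π.2.trans (Equiv.swap i j))

lemma sw_invol (x : Fin m → Bool) (i j : Fin m) (π : Sy m) : sw x i j (sw x i j π) = π := by
  unfold sw
  ext a
  · simp
  · simp
  · simp

lemma sw_uP (x : Fin m → Bool) (i j : Fin m) (π : Sy m) : uP (sw x i j π) x = uP π x := by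
  funext e
  unfold uP
  congr 1
  simp only [sw, Equiv.trans_apply]
  rw [eq_iff_iff]
  have key : ∀ (c : Fin m), (Equiv.swap (i, x i) (j, x j)) (c, x c) =
      (Equiv.swap i j c, x (Equiv.swap i j c)) := by
    intro c
    by_cases h1 : c = i
    · subst h1; simp
    · by_cases h2 : c = j
      · subst h2; simp
      · rw [Equiv.swap_apply_of_ne_of_ne h1 h2, Equiv.swap_apply_of_ne_of_ne]
        · intro h; exact h1 (Prod.ext_iff.mp h).1
        · intro h; exact h2 (Prod.ext_iff.mp h).1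
  rw [← key, Equiv.apply_eq_iff_eq]

lemma sw_vQ {x y : Fin m → Bool} {i j : Fin m} (hij : j ≠ i) (hxj : x j = true)
    (hyj : y j = true) (π : Sy m) : vQ (sw x i j π) i y = vQ π i y := by
  funext e
  unfold vQ
  congr 1
  simp only [sw, Equiv.trans_apply]
  rw [eq_iff_iff]
  have k1 : ∀ c : Fin m, (Equiv.swap i j c ≠ i ∧ y (Equiv.swap i j c) = false) ↔
      (c ≠ i ∧ y c = false) := by
    intro c
    by_cases h1 : c = i
    · subst h1; simp [hyj]
    · by_cases h2 : c = j
      · subst h2; simp [hyj]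
      · rw [Equiv.swap_apply_of_ne_of_ne h1 h2]
  have k2 : ∀ l : Fin m × Bool, ((Equiv.swap (i, x i) (j, x j) l).2 = false ∧
      (Equiv.swap (i, x i) (j, x j) l).1 ≠ i ∧ y (Equiv.swap (i, x i) (j, x j) l).1 = true) ↔
      (l.2 = false ∧ l.1 ≠ i ∧ y l.1 = true) := by
    intro l
    by_cases h1 : l = (i, x i)
    · subst h1; simp [hxj]
    · by_cases h2 : l = (j, x j)
      · subst h2; simp [hxj]
      · rw [Equiv.swap_apply_of_ne_of_ne h1 h2]
  rw [k1, k2]

/-- the intersection -/
def cap (x y : Fin m → Bool) : Finset (Fin m) := univ.filter (fun j => x j = true ∧ y j = true)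

lemma mem_cap {x y : Fin m → Bool} {j : Fin m} : j ∈ cap x y ↔ x j = true ∧ y j = true := by
  simp [cap]

/-- exact count for one removed index -/
theorem count_one (F : (Vr m → Bool) → (Vr m → Bool) → Vr m) {x y : Fin m → Bool} {i : Fin m}
    (hi : i ∉ cap x y)
    (hF : ∀ π, uP π x (F (uP π x) (vQ π i y)) = true ∧ vQ π i y (F (uP π x) (vQ π i y)) = false) :
    ((cap x y).card + 1) * (univ.filter (fun π : Sy m =>
      π.2 (F (uP π x) (vQ π i y)).2 = i)).card = Fintype.card (Sy m) := by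
  classical
  have h1 : ∀ j ∈ cap x y, (univ.filter (fun π : Sy m =>
      π.2 (F (uP π x) (vQ π i y)).2 = j)).card = (univ.filter (fun π : Sy m =>
      π.2 (F (uP π x) (vQ π i y)).2 = i)).card := by
    intro j hj
    rw [mem_cap] at hj
    have hij : j ≠ i := by
      rintro rfl
      exact hi (mem_cap.mpr hj)
    refine Finset.card_bij (fun π _ => sw x i j π) ?_ ?_ ?_
    · intro π hπ
      simp only [Finset.mem_filter, Finset.mem_univ, true_and] at hπ ⊢
      rw [sw_uP, sw_vQ hij hj.1 hj.2]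
      simp only [sw, Equiv.trans_apply]
      rw [hπ]; simp
    · intro π _ π' _ h
      have := congrArg (sw x i j) h
      rwa [sw_invol, sw_invol] at this
    · intro π hπ
      refine ⟨sw x i j π, ?_, sw_invol x i j π⟩
      simp only [Finset.mem_filter, Finset.mem_univ, true_and] at hπ ⊢
      rw [sw_uP, sw_vQ hij hj.1 hj.2]
      simp only [sw, Equiv.trans_apply]
      rw [hπ]; simp
  have h2 : Fintype.card (Sy m) = ∑ j ∈ insert i (cap x y), (univ.filter (fun π : Sy m =>
      π.2 (F (uP π x) (vQ π i y)).2 = j)).card := by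
    rw [← Finset.card_univ]
    refine Finset.card_eq_sum_card_fiberwise (fun π _ => ?_)
    have h3 := valid1 (hF π).1 (hF π).2
    simp only [Finset.coe_insert, Set.mem_insert_iff, Finset.mem_coe, mem_cap]
    exact h3
  rw [h2, Finset.sum_insert hi, Finset.sum_congr rfl h1, Finset.sum_const]
  simp only [smul_eq_mul]
  ring

/-- exact value of the symmetrised game -/
theorem count_all (F : (Vr m → Bool) → (Vr m → Bool) → Vr m) {x y : Fin m → Bool}
    (hF : ∀ π i, uP π x (F (uP π x) (vQ π i y)) = true ∧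
      vQ π i y (F (uP π x) (vQ π i y)) = false) :
    ∑ i : Fin m, ∑ π : Sy m, ind (Ev π i y (F (uP π x) (vQ π i y))) =
      (Fintype.card (Sy m) : ℝ) * (((m : ℝ) - (cap x y).card) / ((cap x y).card + 1)) := by
  classical
  have h1 : ∀ i, ∑ π : Sy m, ind (Ev π i y (F (uP π x) (vQ π i y))) =
      if i ∈ cap x y then 0 else (Fintype.card (Sy m) : ℝ) / ((cap x y).card + 1) := by
    intro i
    split_ifs with hi
    · refine Finset.sum_eq_zero (fun π _ => ind_neg ?_)
      rw [valid2 (hF π i).1]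
      rintro ⟨-, h⟩
      exact h (mem_cap.mp hi)
    · have h2 := count_one F hi (fun π => hF π i)
      have h3 : ∑ π : Sy m, ind (Ev π i y (F (uP π x) (vQ π i y))) =
          ((univ.filter (fun π : Sy m => π.2 (F (uP π x) (vQ π i y)).2 = i)).card : ℝ) := by
        rw [Finset.card_filter]
        push_cast
        refine Finset.sum_congr rfl (fun π _ => ?_)
        by_cases h : π.2 (F (uP π x) (vQ π i y)).2 = i
        · rw [if_pos h, ind_pos]
          rw [valid2 (hF π i).1]
          exact ⟨h, fun h => hi (mem_cap.mpr h)⟩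
        · rw [if_neg h, ind_neg]
          rw [valid2 (hF π i).1]
          exact fun h' => h h'.1
      rw [h3, ← h2]
      push_cast
      field_simp
  rw [Finset.sum_congr rfl (fun i _ => h1 i)]
  rw [Finset.sum_ite, Finset.sum_const_zero, zero_add, Finset.sum_const]
  have h4 : (univ.filter (fun i => i ∉ cap x y)).card = m - (cap x y).card := by
    have h5 : univ.filter (fun i => i ∉ cap x y) = (cap x y)ᶜ := by
      ext i; simp
    rw [h5, Finset.card_compl, Fintype.card_fin]
  have h6 : (cap x y).card ≤ m := by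
    have := Finset.card_le_univ (cap x y)
    rwa [Fintype.card_fin] at this
  rw [h4, nsmul_eq_mul]
  push_cast [Nat.cast_sub h6]
  ring

/-- the sign is `(-1)^|x ∩ y|` -/
lemma sg_eq (x y : Fin m → Bool) : sg x y = (-1 : ℝ) ^ (cap x y).card := by
  unfold sg
  rw [Finset.prod_ite]
  simp only [Finset.prod_const, one_pow, mul_one]
  rfl

/-- number of pairs with a given intersection -/
lemma pairs_cap (S : Finset (Fin m)) :
    (univ.filter (fun p : (Fin m → Bool) × (Fin m → Bool) => cap p.1 p.2 = S)).card =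
      3 ^ (m - S.card) := by
  classical
  let t : Fin m → Finset (Bool × Bool) := fun i =>
    if i ∈ S then {(true, true)} else {(false, false), (false, true), (true, false)}
  have h1 : (univ.filter (fun p : (Fin m → Bool) × (Fin m → Bool) => cap p.1 p.2 = S)).card =
      (Fintype.piFinset t).card := by
    refine Finset.card_bij (fun p _ i => (p.1 i, p.2 i)) ?_ ?_ ?_
    · intro p hp
      simp only [Finset.mem_filter, Finset.mem_univ, true_and] at hp
      rw [Fintype.mem_piFinset]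
      intro i
      simp only [t]
      split_ifs with hi
      · rw [← hp, mem_cap] at hi
        simp [hi.1, hi.2]
      · rw [← hp, mem_cap] at hi
        revert hi
        cases p.1 i <;> cases p.2 i <;> simp
    · intro p _ q _ h
      refine Prod.ext (funext fun i => ?_) (funext fun i => ?_)
      · exact (Prod.ext_iff.mp (congrFun h i)).1
      · exact (Prod.ext_iff.mp (congrFun h i)).2
    · intro c hc
      rw [Fintype.mem_piFinset] at hc
      refine ⟨(fun i => (c i).1, fun i => (c i).2), ?_, rfl⟩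
      simp only [Finset.mem_filter, Finset.mem_univ, true_and]
      ext i
      rw [mem_cap]
      have := hc i
      simp only [t] at this
      split_ifs at this with hi
      · simp only [Finset.mem_singleton] at this
        simp [this, hi]
      · simp only [Finset.mem_insert, Finset.mem_singleton] at this
        constructor
        · rintro ⟨h1, h2⟩
          exfalso
          rcases this with h | h | h <;> rw [h] at h1 h2 <;> simp at h1 h2
        · intro h; exact absurd h hi
  rw [h1, Fintype.card_piFinset]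
  have h2 : ∀ i, (t i).card = if i ∈ S then 1 else 3 := by
    intro i
    simp only [t]
    split_ifs <;> rfl
  rw [Finset.prod_congr rfl (fun i _ => h2 i), Finset.prod_ite]
  simp only [Finset.prod_const, one_pow, one_mul]
  congr 1
  have h5 : univ.filter (fun i => i ∉ S) = Sᶜ := by
    ext i; simp
  rw [h5, Finset.card_compl, Fintype.card_fin]

lemma cap_sum (h : ℕ → ℝ) : ∑ x : Fin m → Bool, ∑ y : Fin m → Bool, h (cap x y).card =
    ∑ k ∈ range (m + 1), (m.choose k : ℝ) * (3 ^ (m - k) * h k) := by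
  classical
  rw [← Finset.sum_product']
  have h1 : ∑ p ∈ (univ : Finset (Fin m → Bool)) ×ˢ (univ : Finset (Fin m → Bool)),
      h (cap p.1 p.2).card = ∑ S ∈ (univ : Finset (Fin m)).powerset, ∑ p ∈
        ((univ : Finset (Fin m → Bool)) ×ˢ (univ : Finset (Fin m → Bool))).filter
          (fun p => cap p.1 p.2 = S), h (cap p.1 p.2).card := by
    refine (Finset.sum_fiberwise_of_maps_to (fun p _ => ?_) _).symm
    simp
  rw [h1]
  have h2 : ∀ S ∈ (univ : Finset (Fin m)).powerset, ∑ p ∈
        ((univ : Finset (Fin m → Bool)) ×ˢ (univ : Finset (Fin m → Bool))).filter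
          (fun p => cap p.1 p.2 = S), h (cap p.1 p.2).card = 3 ^ (m - S.card) * h S.card := by
    intro S _
    have h3 : ∀ p ∈ ((univ : Finset (Fin m → Bool)) ×ˢ (univ : Finset (Fin m → Bool))).filter
          (fun p => cap p.1 p.2 = S), h (cap p.1 p.2).card = h S.card := by
      intro p hp
      rw [(Finset.mem_filter.mp hp).2]
    rw [Finset.sum_congr rfl h3, Finset.sum_const, nsmul_eq_mul]
    congr 1
    have h4 := pairs_cap S
    rw [Finset.univ_product_univ]
    rw [h4]
    push_cast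
    rfl
  rw [Finset.sum_congr rfl h2, Finset.sum_powerset_apply_card (fun k => 3 ^ (m - k) * h k)]
  simp only [Finset.card_univ, Fintype.card_fin, nsmul_eq_mul]

/-- the total weight -/
theorem total : ∑ x : Fin m → Bool, ∑ y : Fin m → Bool,
    sg x y * (((m : ℝ) - (cap x y).card) / ((cap x y).card + 1)) = 3 * (3 ^ m - 2 ^ m) := by
  simp only [sg_eq]
  rw [cap_sum (fun k => (-1 : ℝ) ^ k * (((m : ℝ) - k) / (k + 1)))]
  rw [Finset.sum_range_succ]
  simp only [sub_self, zero_div, mul_zero, add_zero]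
  have h1 : ∀ k ∈ range m, (m.choose k : ℝ) * (3 ^ (m - k) * ((-1) ^ k * (((m : ℝ) - k) / (k + 1))))
      = -3 * ((-1) ^ (k + 1) * 3 ^ (m - (k + 1)) * (m.choose (k + 1) : ℝ)) := by
    intro k hk
    rw [Finset.mem_range] at hk
    have h2 : (m.choose (k + 1) : ℝ) * (k + 1) = m.choose k * ((m : ℝ) - k) := by
      have := Nat.choose_succ_right_eq m k
      have h3 : (m.choose (k + 1) : ℝ) * ((k + 1 : ℕ) : ℝ) = m.choose k * ((m - k : ℕ) : ℝ) := by
        exact_mod_cast this
      rw [Nat.cast_sub (by omega)] at h3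
      push_cast at h3
      exact h3
    have h4 : (m.choose k : ℝ) * (((m : ℝ) - k) / (k + 1)) = m.choose (k + 1) := by
      rw [← mul_div_assoc, ← h2]
      field_simp
    have h5 : (3 : ℝ) ^ (m - k) = 3 * 3 ^ (m - (k + 1)) := by
      rw [← pow_succ']
      congr 1
      omega
    calc (m.choose k : ℝ) * (3 ^ (m - k) * ((-1) ^ k * (((m : ℝ) - k) / (k + 1))))
        = 3 ^ (m - k) * (-1) ^ k * ((m.choose k : ℝ) * (((m : ℝ) - k) / (k + 1))) := by ring
      _ = -3 * ((-1) ^ (k + 1) * 3 ^ (m - (k + 1)) * (m.choose (k + 1) : ℝ)) := by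
        rw [h4, h5, pow_succ]; ring
  rw [Finset.sum_congr rfl h1, ← Finset.mul_sum]
  have h2 : (2 : ℝ) ^ m = ∑ k ∈ range (m + 1), (-1) ^ k * 3 ^ (m - k) * (m.choose k : ℝ) := by
    rw [← add_pow]; norm_num
  rw [Finset.sum_range_succ'] at h2
  simp only [pow_zero, Nat.sub_zero, one_mul, Nat.choose_zero_right, Nat.cast_one, mul_one] at h2
  rw [h2]
  ring

/-- The matching game is hard. -/
theorem game_bound {d : ℕ} {F : (Vr m → Bool) → (Vr m → Bool) → Vr m}
    (hP : Prot d F)
    (hF : ∀ π i x y, uP π x (F (uP π x) (vQ π i y)) = true ∧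
      vQ π i y (F (uP π x) (vQ π i y)) = false) :
    3 * ((3 : ℝ) ^ m - 2 ^ m) ≤ m * (2 ^ d * Real.sqrt (8 ^ m)) := by
  classical
  have h1 : ∑ i : Fin m, ∑ π : Sy m, ∑ x, ∑ y, sg x y *
      ind (True ∧ Ev π i y (F (uP π x) (vQ π i y))) =
      (Fintype.card (Sy m) : ℝ) * (3 * (3 ^ m - 2 ^ m)) := by
    have h2 : ∑ i : Fin m, ∑ π : Sy m, ∑ x, ∑ y, sg x y *
      ind (True ∧ Ev π i y (F (uP π x) (vQ π i y))) = ∑ x, ∑ y, sg x y *
        ∑ i : Fin m, ∑ π : Sy m, ind (Ev π i y (F (uP π x) (vQ π i y))) := by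
      simp only [true_and, Finset.mul_sum]
      have e1 : ∀ i : Fin m, ∑ π : Sy m, ∑ x, ∑ y, sg x y *
          ind (Ev π i y (F (uP π x) (vQ π i y))) = ∑ x, ∑ y, ∑ π : Sy m, sg x y *
          ind (Ev π i y (F (uP π x) (vQ π i y))) := by
        intro i
        rw [Finset.sum_comm]
        exact Finset.sum_congr rfl (fun x _ => Finset.sum_comm)
      rw [Finset.sum_congr rfl (fun i _ => e1 i), Finset.sum_comm]
      exact Finset.sum_congr rfl (fun x _ => Finset.sum_comm)
    rw [h2]
    have h3 : ∀ x y : Fin m → Bool, ∑ i : Fin m, ∑ π : Sy m,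
        ind (Ev π i y (F (uP π x) (vQ π i y))) = (Fintype.card (Sy m) : ℝ) *
          (((m : ℝ) - (cap x y).card) / ((cap x y).card + 1)) :=
      fun x y => count_all F (fun π i => hF π i x y)
    simp only [h3]
    rw [← total, Finset.mul_sum]
    refine Finset.sum_congr rfl (fun x _ => ?_)
    rw [Finset.mul_sum]
    exact Finset.sum_congr rfl (fun y _ => by ring)
  have h4 : ∀ (i : Fin m) (π : Sy m), ∑ x, ∑ y, sg x y *
      ind (True ∧ Ev π i y (F (uP π x) (vQ π i y))) ≤ 2 ^ d * Real.sqrt (8 ^ m) := by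
    intro i π
    have h5 := prot_bound (hP.comp (fun x => uP π x) (fun y => vQ π i y)) (fun _ => True)
      (fun y e => Ev π i y e)
    exact (le_abs_self _).trans h5
  have h6 : (Fintype.card (Sy m) : ℝ) * (3 * (3 ^ m - 2 ^ m)) ≤
      (Fintype.card (Sy m) : ℝ) * (m * (2 ^ d * Real.sqrt (8 ^ m))) := by
    rw [← h1]
    refine (Finset.sum_le_sum (fun i _ => Finset.sum_le_sum (fun π _ => h4 i π))).trans ?_
    simp only [Finset.sum_const, Finset.card_univ, Fintype.card_fin, nsmul_eq_mul]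
    apply le_of_eq
    ring
  have h7 : (0 : ℝ) < Fintype.card (Sy m) := by
    exact_mod_cast Fintype.card_pos
  exact le_of_mul_le_mul_left h6 h7

/-- No monotone tree of depth `d` separates the matchings from the covers if `m` is large. -/
theorem no_tree {d : ℕ} (hd : 4 ≤ d) (hm : m = 36 * d) (g : (Vr m → Bool) → Bool)
    (hg : MT (varsOf (Vr m)) d g) (h1 : ∀ π x, g (uP π x) = true)
    (h2 : ∀ π i y, g (vQ π i y) = false) : False := by
  have hm1 : 1 ≤ m := by omega
  have : Nonempty (Vr m) := ⟨((⟨0, by omega⟩, true), ⟨0, by omega⟩)⟩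
  obtain ⟨F, hF1, hF2⟩ := kw hg
  have h3 := game_bound hF1 (fun π i x y => hF2 _ _ (h1 π x) (h2 π i y))
  have h4 : (3 : ℝ) ^ m ≤ 3 * (3 ^ m - 2 ^ m) := by
    have h5 : (2 : ℝ) ^ m * 3 ≤ 2 * 3 ^ m := by
      obtain ⟨n, rfl⟩ : ∃ n, m = n + 1 := ⟨m - 1, by omega⟩
      rw [pow_succ, pow_succ]
      have : (2 : ℝ) ^ n ≤ 3 ^ n := pow_le_pow_left₀ (by norm_num) (by norm_num) n
      linarith
    linarith
  have h5 : (3 : ℝ) ^ m ≤ m * (2 ^ d * Real.sqrt (8 ^ m)) := h4.trans h3
  have h6 : ((3 : ℝ) ^ m) ^ 2 ≤ (m * (2 ^ d * Real.sqrt (8 ^ m))) ^ 2 :=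
    pow_le_pow_left₀ (by positivity) h5 2
  have h7 : (m * (2 ^ d * Real.sqrt (8 ^ m))) ^ 2 = (m : ℝ) ^ 2 * (4 ^ d * 8 ^ m) := by
    rw [mul_pow, mul_pow, Real.sq_sqrt (by positivity), ← pow_mul, mul_comm d 2, pow_mul]
    norm_num
  have h8 : ((3 : ℝ) ^ m) ^ 2 = 9 ^ m := by
    rw [← pow_mul, mul_comm m 2, pow_mul]; norm_num
  rw [h7, h8] at h6
  have h9 : (9 : ℕ) ^ m ≤ m ^ 2 * (4 ^ d * 8 ^ m) := by exact_mod_cast h6
  have h10 : (2 : ℕ) ^ (6 * d) * 8 ^ m ≤ 9 ^ m := by
    have e1 : (2 : ℕ) ^ (6 * d) * 8 ^ m = (2 * 8 ^ 6) ^ (6 * d) := by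
      rw [mul_pow, ← pow_mul, hm]; ring_nf
    have e2 : (9 : ℕ) ^ m = (9 ^ 6) ^ (6 * d) := by
      rw [← pow_mul, hm]; ring_nf
    rw [e1, e2]
    exact Nat.pow_le_pow_left (by norm_num) _
  have h11 : ∀ n : ℕ, 1296 * (n + 4) ^ 2 < 16 ^ (n + 4) := by
    intro n
    induction n with
    | zero => norm_num
    | succ n ih =>
      have e3 : (16 : ℕ) ^ (n + 1 + 4) = 16 * 16 ^ (n + 4) := by ring
      have e6 : (n + 1 + 4) ^ 2 ≤ 16 * (n + 4) ^ 2 := by
        have e7 : 16 * (n + 4) ^ 2 = (4 * (n + 4)) ^ 2 := by ring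
        rw [e7]
        exact Nat.pow_le_pow_left (by omega) 2
      rw [e3]
      calc 1296 * (n + 1 + 4) ^ 2 ≤ 1296 * (16 * (n + 4) ^ 2) := Nat.mul_le_mul_left _ e6
        _ = 16 * (1296 * (n + 4) ^ 2) := by ring
        _ < 16 * 16 ^ (n + 4) := Nat.mul_lt_mul_of_pos_left ih (by norm_num)
  have h12 : m ^ 2 * 4 ^ d < 2 ^ (6 * d) := by
    obtain ⟨n, rfl⟩ : ∃ n, d = n + 4 := ⟨d - 4, by omega⟩
    have h13 := h11 n
    have e4 : (2 : ℕ) ^ (6 * (n + 4)) = 16 ^ (n + 4) * 4 ^ (n + 4) := by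
      rw [← mul_pow, pow_mul]; norm_num
    rw [e4, hm]
    have e5 : (36 * (n + 4)) ^ 2 = 1296 * (n + 4) ^ 2 := by ring
    rw [e5]
    exact Nat.mul_lt_mul_of_pos_right h13 (by positivity)
  have h14 : m ^ 2 * (4 ^ d * 8 ^ m) < 2 ^ (6 * d) * 8 ^ m := by
    rw [← mul_assoc]
    exact Nat.mul_lt_mul_of_pos_right h12 (by positivity)
  omega

end Pool.Agent.H586R2.PM
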