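import Pool.Agent.H560R2.Dep1

/-! Monotone trees over leaf functions and the freezing of arbitrary gates below an accepted
input. -/

namespace Pool.Agent.H586R2.PM

open Finset Pool.Agent.H560R2

/-- functions computed by monotone trees of depth `d` over the leaf functions `B` -/
inductive MT {X : Type*} (B : Set (X → Bool)) : ℕ → (X → Bool) → Prop
  | base {b : X → Bool} : b ∈ B → MT B 0 b
  | const (c : Bool) : MT B 0 (fun _ => c)
  | weak {d : ℕ} {f : X → Bool} : MT B d f → MT B (d + 1) f
  | and {d : ℕ} {f g : X → Bool} : MT B d f → MT B d g → MT B (d + 1) (fun x => f x && g x)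
  | or {d : ℕ} {f g : X → Bool} : MT B d f → MT B d g → MT B (d + 1) (fun x => f x || g x)

lemma MT.mono {X : Type*} {B : Set (X → Bool)} {d e : ℕ} {f : X → Bool} (h : MT B d f)
    (hde : d ≤ e) : MT B e f := by
  induction hde with
  | refl => exact h
  | step _ ih => exact ih.weak

lemma MT.comp {X Y : Type*} {B : Set (X → Bool)} {B' : Set (Y → Bool)} {w : ℕ} (E : Y → X)
    (hB : ∀ b ∈ B, MT B' w (fun y => b (E y))) {d : ℕ} {f : X → Bool} (h : MT B d f) :
    MT B' (d + w) (fun y => f (E y)) := by
  induction h with
  | base hb => simpa using hB _ hb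
  | const c => exact (MT.const c).mono (Nat.zero_le _)
  | weak _ ih => exact ih.mono (by omega)
  | @and d f g _ _ ihf ihg =>
    have : d + 1 + w = (d + w) + 1 := by omega
    rw [this]
    exact MT.and ihf ihg
  | @or d f g _ _ ihf ihg =>
    have : d + 1 + w = (d + w) + 1 := by omega
    rw [this]
    exact MT.or ihf ihg

/-- monotonicity in the leaves -/
lemma MT.le_of_le {X : Type*} {B : Set (X → Bool)} {d : ℕ} {f : X → Bool} (h : MT B d f)
    (x y : X) (hxy : ∀ b ∈ B, b x ≤ b y) : f x ≤ f y := by
  induction h with
  | base hb => exact hxy _ hb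
  | const c => exact le_rfl
  | weak _ ih => exact ih
  | @and d f g _ _ ihf ihg =>
    revert ihf ihg
    show f x ≤ f y → g x ≤ g y → (f x && g x) ≤ (f y && g y)
    cases f x <;> cases f y <;> cases g x <;> cases g y <;> simp
  | @or d f g _ _ ihf ihg =>
    revert ihf ihg
    show f x ≤ f y → g x ≤ g y → (f x || g x) ≤ (f y || g y)
    cases f x <;> cases f y <;> cases g x <;> cases g y <;> simp

/-- balanced conjunctions -/
lemma MT.all {X : Type*} {B : Set (X → Bool)} {D : ℕ} :
    ∀ (k : ℕ) (l : List (X → Bool)), l.length ≤ 2 ^ k →
      (∀ f ∈ l, MT B D f) → MT B (D + k) (fun x => l.all (fun f => f x)) := by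
  intro k
  induction k with
  | zero =>
    intro l hlen hB
    rcases l with _ | ⟨f, _ | ⟨g, l⟩⟩
    · exact (MT.const true).mono (Nat.zero_le _)
    · have : (fun x => [f].all (fun f => f x)) = f := by
        funext x; simp
      rw [this]
      exact hB f (by simp)
    · simp at hlen
  | succ k ih =>
    intro l hlen hB
    have e : (fun x => l.all (fun f => f x)) = fun x =>
        ((l.take (2 ^ k)).all (fun f => f x) && (l.drop (2 ^ k)).all (fun f => f x)) := by
      funext x
      rw [← List.all_append, List.take_append_drop]
    rw [e]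
    rw [pow_succ] at hlen
    refine MT.and (ih _ ?_ ?_) (ih _ ?_ ?_)
    · rw [List.length_take]; omega
    · intro f hf
      exact hB f (List.mem_of_mem_take hf)
    · rw [List.length_drop]; omega
    · intro f hf
      exact hB f (List.mem_of_mem_drop hf)

section

variable {Lf X : Type*} {s : ℕ}

/-- iterated evaluation of the circuit in which the gates of `T` are replaced by constants -/
def fro (T : Finset (Fin s)) (w : Fin s → ℕ) (a : ∀ i, Fin (w i) → Lf ⊕ Fin s)
    (op : ∀ i, (Fin (w i) → Bool) → Bool) (leaf : Lf → X → Bool) (c : Fin s → Bool) :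
    ℕ → Fin s → X → Bool
  | 0, _, _ => false
  | k + 1, i, x => if i ∈ T then c i else
      op i (fun j => Sum.elim (fun l => leaf l x) (fun l => fro T w a op leaf c k l x) (a i j))

variable {T : Finset (Fin s)} {w : Fin s → ℕ} {a : ∀ i, Fin (w i) → Lf ⊕ Fin s}
  {op : ∀ i, (Fin (w i) → Bool) → Bool} {leaf : Lf → X → Bool} {c : Fin s → Bool}

lemma fro_stable (htop : ∀ i j k, a i j = Sum.inr k → k < i) :
    ∀ k (i : Fin s), i.val < k → ∀ x,
      fro T w a op leaf c (k + 1) i x = fro T w a op leaf c k i x := by
  intro k
  induction k with
  | zero => intro i hi; omega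
  | succ k ih =>
    intro i hi x
    show (if i ∈ T then c i else _) = (if i ∈ T then c i else _)
    by_cases hT : i ∈ T
    · rw [if_pos hT, if_pos hT]
    · rw [if_neg hT, if_neg hT]
      congr 1
      funext j
      rcases h : a i j with p | l
      · rfl
      · have : l.val < i.val := htop i j l h
        exact ih l (by omega) x

lemma fro_eq (htop : ∀ i j k, a i j = Sum.inr k → k < i) (i : Fin s) (x : X) :
    fro T w a op leaf c s i x = if i ∈ T then c i else
      op i (fun j => Sum.elim (fun l => leaf l x)
        (fun l => fro T w a op leaf c s l x) (a i j)) := by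
  rw [← fro_stable htop s i i.isLt x]
  rfl

lemma fro_depth (htop : ∀ i j k, a i j = Sum.inr k → k < i)
    (hmon : ∀ i ∉ T, w i ≤ 2 ∧ Monotone (op i)) {dep : Fin s → ℕ}
    (hdep : ∀ i ∉ T, 1 ≤ dep i ∧ ∀ j k, a i j = Sum.inr k → k ∉ T → dep k < dep i) :
    ∀ m (i : Fin s), i.val = m →
      MT {f | ∃ l, f = leaf l} (if i ∈ T then 0 else dep i) (fro T w a op leaf c s i) := by
  intro m
  induction m using Nat.strong_induction_on with
  | _ m ih =>
    intro i hi
    by_cases hT : i ∈ T
    · have : fro T w a op leaf c s i = fun _ => c i := by
        funext x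
        rw [fro_eq htop, if_pos hT]
      rw [this, if_pos hT]
      exact MT.const _
    · rw [if_neg hT]
      obtain ⟨b, p, q, hpq⟩ := mono_two (w i) (hmon i hT).1 (op i) (hmon i hT).2
      obtain ⟨m', hm'⟩ : ∃ m', dep i = m' + 1 := ⟨dep i - 1, by have := (hdep i hT).1; omega⟩
      let wr : Bool ⊕ Fin (w i) → X → Bool := fun p x =>
        Sum.elim id (fun j => Sum.elim (fun l => leaf l x)
          (fun l => fro T w a op leaf c s l x) (a i j)) p
      have hwr : ∀ p, MT {f | ∃ l, f = leaf l} m' (wr p) := by
        rintro (e | j)
        · exact (MT.const e).mono (Nat.zero_le _)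
        · rcases hj : a i j with v | l
          · have : wr (Sum.inr j) = leaf v := by
              funext x
              simp [wr, hj]
            rw [this]
            exact MT.mono (MT.base (B := {f | ∃ l, f = leaf l}) ⟨v, rfl⟩) (Nat.zero_le _)
          · have : wr (Sum.inr j) = fro T w a op leaf c s l := by
              funext x
              simp [wr, hj]
            rw [this]
            have h1 : l.val < i.val := htop i j l hj
            refine (ih l.val (by omega) l rfl).mono ?_
            by_cases hlT : l ∈ T
            · rw [if_pos hlT]; omega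
            · rw [if_neg hlT]
              have := (hdep i hT).2 j l hj hlT
              omega
      rw [hm']
      rcases b with _ | _
      · have : fro T w a op leaf c s i = fun x => wr p x || wr q x := by
          funext x
          rw [fro_eq htop, if_neg hT, hpq]
          simp [wr]
        rw [this]
        exact MT.or (hwr p) (hwr q)
      · have : fro T w a op leaf c s i = fun x => wr p x && wr q x := by
          funext x
          rw [fro_eq htop, if_neg hT, hpq]
          simp [wr]
        rw [this]
        exact MT.and (hwr p) (hwr q)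

/-- The flip lemma below an accepted input `x0`. -/
theorem flip_and (htop : ∀ i j k, a i j = Sum.inr k → k < i)
    (hmon : ∀ i ∉ T, w i ≤ 2 ∧ Monotone (op i)) {dep : Fin s → ℕ} {D : ℕ}
    (hdep : ∀ i ∉ T, 1 ≤ dep i ∧ dep i ≤ D ∧
      ∀ j k, a i j = Sum.inr k → k ∉ T → dep k < dep i)
    (val : X → Fin s → Bool)
    (hval : ∀ x i, val x i = op i (fun j => Sum.elim (fun l => leaf l x) (val x) (a i j)))
    (o : Fin s) (x0 : X) (Dm : Set X) (hDm : ∀ x ∈ Dm, ∀ l, leaf l x ≤ leaf l x0)
    (h : ∀ x ∈ Dm, val x o = true → ∀ i ∈ T, ∀ j,
      Sum.elim (fun l => leaf l x) (val x) (a i j) =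
        Sum.elim (fun l => leaf l x0) (val x0) (a i j))
    (k : ℕ) (hk : 1 + ∑ i ∈ T, w i ≤ 2 ^ k) :
    ∃ g, MT {f | ∃ l, f = leaf l} (D + k) g ∧ ∀ x ∈ Dm, g x = val x o := by
  classical
  set ρ := fro T w a op leaf (fun i => val x0 i) s with hρ
  have hρeq : ∀ i x, ρ i x = if i ∈ T then val x0 i else
      op i (fun j => Sum.elim (fun l => leaf l x) (fun l => ρ l x) (a i j)) := fun i x =>
    fro_eq htop i x
  have hρMD : ∀ i, MT {f | ∃ l, f = leaf l} D (ρ i) := by
    intro i
    refine (fro_depth (dep := dep) htop hmon (fun i hi => ⟨(hdep i hi).1, (hdep i hi).2.2⟩)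
      i.val i rfl).mono ?_
    by_cases hT : i ∈ T
    · rw [if_pos hT]; exact Nat.zero_le _
    · rw [if_neg hT]; exact (hdep i hT).2.1
  -- agreement
  have hagree : ∀ x, ((∀ i ∈ T, ∀ j, Sum.elim (fun l => leaf l x) (fun l => ρ l x) (a i j) =
      Sum.elim (fun l => leaf l x0) (val x0) (a i j)) → ∀ i, ρ i x = val x i) := by
    intro x hx
    have : ∀ m (i : Fin s), i.val = m → ρ i x = val x i := by
      intro m
      induction m using Nat.strong_induction_on with
      | _ m ih =>
        intro i hi
        have hin : ∀ j, Sum.elim (fun l => leaf l x) (fun l => ρ l x) (a i j) =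
            Sum.elim (fun l => leaf l x) (val x) (a i j) := by
          intro j
          rcases hj : a i j with v | l
          · rfl
          · have : l.val < i.val := htop i j l hj
            exact ih l.val (by omega) l rfl
        by_cases hT : i ∈ T
        · rw [hρeq, if_pos hT, hval, hval]
          congr 1
          funext j
          rw [← hin j]
          exact (hx i hT j).symm
        · rw [hρeq, if_neg hT, hval x i]
          congr 1
          funext j
          exact hin j
    exact fun i => this i.val i rfl
  have hagree2 : ∀ x, (∀ i ∈ T, ∀ j, Sum.elim (fun l => leaf l x) (val x) (a i j) =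
      Sum.elim (fun l => leaf l x0) (val x0) (a i j)) → ∀ i, ρ i x = val x i := by
    intro x hx
    have : ∀ m (i : Fin s), i.val = m → ρ i x = val x i := by
      intro m
      induction m using Nat.strong_induction_on with
      | _ m ih =>
        intro i hi
        have hin : ∀ j, Sum.elim (fun l => leaf l x) (fun l => ρ l x) (a i j) =
            Sum.elim (fun l => leaf l x) (val x) (a i j) := by
          intro j
          rcases hj : a i j with v | l
          · rfl
          · have : l.val < i.val := htop i j l hj
            exact ih l.val (by omega) l rfl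
        by_cases hT : i ∈ T
        · rw [hρeq, if_pos hT, hval, hval]
          congr 1
          funext j
          exact (hx i hT j).symm
        · rw [hρeq, if_neg hT, hval x i]
          congr 1
          funext j
          exact hin j
    exact fun i => this i.val i rfl
  -- the inputs of the gates in T
  let S : Finset (Σ i : Fin s, Fin (w i)) :=
    (T.sigma (fun i => (univ : Finset (Fin (w i))))).filter
      (fun p => Sum.elim (fun l => leaf l x0) (val x0) (a p.1 p.2) = true)
  have hScard : S.card ≤ ∑ i ∈ T, w i := by
    refine (Finset.card_filter_le _ _).trans ?_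
    rw [Finset.card_sigma]
    simp
  let fp : (Σ i : Fin s, Fin (w i)) → X → Bool := fun p x =>
    Sum.elim (fun l => leaf l x) (fun l => ρ l x) (a p.1 p.2)
  have hfp : ∀ p, MT {f | ∃ l, f = leaf l} D (fp p) := by
    intro p
    rcases hj : a p.1 p.2 with v | l
    · have : fp p = leaf v := by
        funext x
        simp [fp, hj]
      rw [this]
      exact MT.mono (MT.base (B := {f | ∃ l, f = leaf l}) ⟨v, rfl⟩) (Nat.zero_le _)
    · have : fp p = ρ l := by
        funext x
        simp [fp, hj]
      rw [this]
      exact hρMD l
  let lst : List (X → Bool) := ρ o :: S.toList.map fp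
  refine ⟨fun x => lst.all (fun f => f x), MT.all k lst ?_ ?_, ?_⟩
  · simp only [lst, List.length_cons, List.length_map, Finset.length_toList]
    omega
  · intro f hf
    rcases List.mem_cons.mp hf with rfl | hf
    · exact hρMD o
    · obtain ⟨p, -, rfl⟩ := List.mem_map.mp hf
      exact hfp p
  · intro x hx
    have hx0 : ∀ i, ρ i x0 = val x0 i := hagree2 x0 (fun _ _ _ => rfl)
    have hfpx0 : ∀ p, fp p x0 = Sum.elim (fun l => leaf l x0) (val x0) (a p.1 p.2) := by
      intro p
      rcases hj : a p.1 p.2 with v | l
      · simp [fp, hj]
      · simp [fp, hj, hx0]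
    by_cases hall : ∀ i ∈ T, ∀ j, Sum.elim (fun l => leaf l x) (fun l => ρ l x) (a i j) =
        Sum.elim (fun l => leaf l x0) (val x0) (a i j)
    · have hrest : (S.toList.map fp).all (fun f => f x) = true := by
        rw [List.all_eq_true]
        intro f hf
        obtain ⟨p, hp, rfl⟩ := List.mem_map.mp hf
        rw [Finset.mem_toList] at hp
        simp only [S, Finset.mem_filter, Finset.mem_sigma] at hp
        have := hall p.1 hp.1.1 p.2
        show Sum.elim (fun l => leaf l x) (fun l => ρ l x) (a p.1 p.2) = true
        rw [this]; exact hp.2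
      simp only [lst, List.all_cons, hrest, Bool.and_true]
      exact hagree x hall o
    · have hfalse : val x o = false := by
        by_contra hne
        rw [Bool.not_eq_false] at hne
        apply hall
        have h1 := h x hx hne
        have h2 := hagree2 x h1
        intro i hi j
        rw [← h1 i hi j]
        rcases hj : a i j with v | l
        · rfl
        · exact h2 l
      rw [hfalse]
      push Not at hall
      obtain ⟨i, hi, j, hij⟩ := hall
      have hle : fp ⟨i, j⟩ x ≤ fp ⟨i, j⟩ x0 := (hfp ⟨i, j⟩).le_of_le x x0 (by
        rintro b ⟨l, rfl⟩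
        exact hDm x hx l)
      rw [hfpx0] at hle
      have hne : fp ⟨i, j⟩ x ≠ Sum.elim (fun l => leaf l x0) (val x0) (a i j) := hij
      have h0 : Sum.elim (fun l => leaf l x0) (val x0) (a i j) = true := by
        by_contra hcon
        rw [Bool.not_eq_true] at hcon
        simp only at hle
        rw [hcon] at hle hne
        exact hne (le_bot_iff.mp hle)
      have h1 : fp ⟨i, j⟩ x = false := by
        rw [h0] at hne
        simpa using hne
      simp only [lst, List.all_cons]
      have : (S.toList.map fp).all (fun f => f x) = false := by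
        rw [List.all_eq_false]
        refine ⟨fp ⟨i, j⟩, List.mem_map.mpr ⟨⟨i, j⟩, ?_, rfl⟩, by rw [h1]; simp⟩
        rw [Finset.mem_toList]
        simp only [S, Finset.mem_filter, Finset.mem_sigma]
        exact ⟨⟨hi, mem_univ _⟩, h0⟩
      rw [this, Bool.and_false]

end

/-- monotone functions of few bits -/
lemma MT.local {X : Type*} {B : Set (X → Bool)} : ∀ (n : ℕ) (H : (Fin n → Bool) → Bool)
    (_ : Monotone H) (β : Fin n → X → Bool) (_ : ∀ j, MT B 0 (β j)),
    MT B (2 * n) (fun x => H (fun j => β j x)) := by
  intro n
  induction n with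
  | zero =>
    intro H hH β hβ
    have : (fun x => H (fun j => β j x)) = fun _ : X => H (fun j => j.elim0) := by
      funext x
      congr 1
      funext j
      exact j.elim0
    rw [this]
    exact MT.const _
  | succ n ih =>
    intro H hH β hβ
    have e : (fun x => H (fun j => β j x)) = fun x : X =>
        (fun x => H (Fin.cons false (fun j => β j.succ x))) x ||
          (fun x => (β 0 x && (fun x => H (Fin.cons true (fun j => β j.succ x))) x)) x := by
      funext x
      have h1 : (fun j => β j x) = Fin.cons (β 0 x) (fun j : Fin n => β j.succ x) := by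
        funext j
        refine Fin.cases ?_ (fun j => ?_) j <;> simp
      rw [h1]
      rcases h0 : β 0 x with _ | _
      · simp [h0]
      · have hm : H (Fin.cons false (fun j : Fin n => β j.succ x)) ≤
            H (Fin.cons true (fun j : Fin n => β j.succ x)) := by
          apply hH
          intro j
          refine Fin.cases ?_ (fun j => ?_) j <;> simp
        simp only [h0]
        revert hm
        cases H (Fin.cons false (fun j : Fin n => β j.succ x)) <;>
          cases H (Fin.cons true (fun j : Fin n => β j.succ x)) <;> simp
    rw [e]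
    have h2 : 2 * (n + 1) = (2 * n + 1) + 1 := by ring
    rw [h2]
    refine MT.or ?_ (MT.and ?_ ?_)
    · refine (ih (fun z => H (Fin.cons false z)) ?_ (fun j => β j.succ)
        (fun j => hβ _)).mono (by omega)
      intro z z' hz
      apply hH
      intro j
      refine Fin.cases ?_ (fun j => ?_) j
      · simp
      · simpa using hz j
    · exact (hβ 0).mono (Nat.zero_le _)
    · refine (ih (fun z => H (Fin.cons true z)) ?_ (fun j => β j.succ)
        (fun j => hβ _))
      intro z z' hz
      apply hH
      intro j
      refine Fin.cases ?_ (fun j => ?_) j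
      · simp
      · simpa using hz j

end Pool.Agent.H586R2.PM
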